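import Pool.Agent.Q251.DA.Graph

/-!
# MP_e7fd15_co: `a_d(G) ≤ 2 a_∞(G) - 1` for `d ≥ 4` and `a_∞(G) ≥ 500`
-/

set_option autoImplicit false

namespace Pool.Agent.Results.MP_e7fd15_co.DiameterFour

open SimpleGraph

/-- The graphs `F 0, …, F (m-1)` are forests whose edge sets partition the edge set of `G`
(parts may be empty). -/
structure IsForestPartition {V : Type} (G : SimpleGraph V) {m : ℕ}
    (F : Fin m → SimpleGraph V) : Prop where
  forest : ∀ i, (F i).IsAcyclic
  disjoint : ∀ i j, i ≠ j → Disjoint (F i).edgeSet (F j).edgeSet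
  cover : ⋃ i, (F i).edgeSet = G.edgeSet

/-- Every connected component of `F` has diameter at most `d` (no condition for `d = ⊤`). -/
def DiamAtMost {V : Type} (F : SimpleGraph V) (d : ℕ∞) : Prop :=
  ∀ u v, F.Reachable u v → (F.dist u v : ℕ∞) ≤ d

/-- `a_d(G)`; `a ⊤ G` is the arboricity `a_∞(G)`. -/
noncomputable def a (d : ℕ∞) {V : Type} (G : SimpleGraph V) : ℕ :=
  sInf {m : ℕ | ∃ F : Fin m → SimpleGraph V, IsForestPartition G F ∧ ∀ i, DiamAtMost (F i) d}

theorem adj_unique {V : Type} {G : SimpleGraph V} {m : ℕ} {F : Fin m → SimpleGraph V}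
    (hF : IsForestPartition G F) (i j : Fin m) (x y : V) (h1 : (F i).Adj x y)
    (h2 : (F j).Adj x y) : i = j := by
  by_contra hne
  exact Set.disjoint_left.1 (hF.disjoint i j hne) ((F i).mem_edgeSet.2 h1)
    ((F j).mem_edgeSet.2 h2)

theorem exists_adj {V : Type} {G : SimpleGraph V} {m : ℕ} {F : Fin m → SimpleGraph V}
    (hF : IsForestPartition G F) (x y : V) : (∃ i, (F i).Adj x y) ↔ G.Adj x y := by
  have h := Set.ext_iff.1 hF.cover s(x, y)
  simpa using h

theorem exists_partition {V : Type} [Fintype V] (G : SimpleGraph V) (k : ℕ) (hk : 500 ≤ k)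
    (F : Fin k → SimpleGraph V) (hF : IsForestPartition G F) :
    ∃ H : Fin (2 * k - 1) → SimpleGraph V, IsForestPartition G H ∧ ∀ i, DiamAtMost (H i) 4 := by
  obtain ⟨H, h1, h2, h3, h4⟩ := Pool.Agent.Q251.DA.rearrange k hk F hF.forest (adj_unique hF)
  refine ⟨H, ⟨h1, ?_, ?_⟩, ?_⟩
  · intro i j hij
    rw [Set.disjoint_left]
    intro e
    induction e using Sym2.ind with
    | _ x y =>
      intro he he'
      exact hij (h2 i j x y ((H i).mem_edgeSet.1 he) ((H j).mem_edgeSet.1 he'))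
  · ext e
    induction e using Sym2.ind with
    | _ x y =>
      have h := (h3 x y).trans (exists_adj hF x y)
      simpa using h
  · intro i u v huv
    exact_mod_cast h4 i u v huv

theorem a_le {V : Type} [Fintype V] (G : SimpleGraph V) (k d : ℕ) (hk : 500 ≤ k) (hd : 4 ≤ d)
    (hG : a ⊤ G = k) : a d G ≤ 2 * k - 1 := by
  have hne : {m : ℕ | ∃ F : Fin m → SimpleGraph V, IsForestPartition G F ∧
      ∀ i, DiamAtMost (F i) ⊤}.Nonempty := by
    rw [Set.nonempty_iff_ne_empty]
    intro h0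
    have : a ⊤ G = 0 := by
      unfold a
      rw [h0, Nat.sInf_empty]
    omega
  have hmem := Nat.sInf_mem hne
  have hG' : sInf {m : ℕ | ∃ F : Fin m → SimpleGraph V, IsForestPartition G F ∧
      ∀ i, DiamAtMost (F i) ⊤} = k := hG
  rw [hG'] at hmem
  obtain ⟨F, hF, -⟩ := hmem
  obtain ⟨H, hH1, hH2⟩ := exists_partition G k hk F hF
  refine Nat.sInf_le ⟨H, hH1, fun i u v huv => (hH2 i u v huv).trans ?_⟩
  exact_mod_cast hd

/-- For `k ≥ 500` every finite graph which can be partitioned into `k` forests can be partitioned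
into `2k - 1` forests all of whose components have diameter at most four; hence
`a_d(G) ≤ 2k - 1` whenever `d ≥ 4` and `a_∞(G) = k ≥ 500`; in particular there is no `d ≥ 4` as in
the question. -/
theorem result :
    (∀ k : ℕ, 500 ≤ k → ∀ (V : Type) [Fintype V] (G : SimpleGraph V),
      (∃ F : Fin k → SimpleGraph V, IsForestPartition G F) →
      ∃ H : Fin (2 * k - 1) → SimpleGraph V, IsForestPartition G H ∧ ∀ i, DiamAtMost (H i) 4) ∧
    (∀ k d : ℕ, 500 ≤ k → 4 ≤ d → ∀ (V : Type) [Fintype V] (G : SimpleGraph V),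
      a ⊤ G = k → a d G ≤ 2 * k - 1) ∧
    ¬ ∃ d : ℕ, 4 ≤ d ∧ ∀ k : ℕ, 1 ≤ k → ∃ (V : Type) (_ : Fintype V) (G : SimpleGraph V),
      a ⊤ G = k ∧ a d G = 2 * k := by
  refine ⟨?_, ?_, ?_⟩
  · rintro k hk V _ G ⟨F, hF⟩
    exact exists_partition G k hk F hF
  · intro k d hk hd V _ G hG
    exact a_le G k d hk hd hG
  · rintro ⟨d, hd, h⟩
    obtain ⟨V, _, G, h1, h2⟩ := h 500 (by norm_num)
    have := a_le G 500 d le_rfl hd h1
    omega

end Pool.Agent.Results.MP_e7fd15_co.DiameterFour
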